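import Mathlib
import Pool.Agent.Helper386.D5V.Helper386_FF_Fund

/-! Reciprocity for truncated polynomial units: basic notions.  `dt ρ w` is the determinant over
`R[X]` of the polynomial `w` whose coefficients act by matrices over `R` through `ρ`. -/

set_option autoImplicit false

namespace Pool.Agent.H309R3.Rec

open Polynomial Matrix

/-- The matrix over `R[X]` of the polynomial `w`, whose coefficients act through `ρ`. -/
noncomputable def mt {A R ι : Type*} [CommRing A] [CommRing R] [Fintype ι] [DecidableEq ι]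
    (ρ : A →+* Matrix ι ι R) (w : A[X]) : Matrix ι ι R[X] :=
  matPolyEquiv.symm (w.map ρ)

/-- Its determinant. -/
noncomputable def dt {A R ι : Type*} [CommRing A] [CommRing R] [Fintype ι] [DecidableEq ι]
    (ρ : A →+* Matrix ι ι R) (w : A[X]) : R[X] :=
  (mt ρ w).det

open Classical in
/-- The norm from `A[X]` to `k[X]` for a finite free `k`-algebra `A` (`1` if there is no finite
basis). -/
noncomputable def nmA (k A : Type*) [CommRing k] [CommRing A] [Algebra k A] (w : A[X]) : k[X] :=
  if h : ∃ n : ℕ, Nonempty (Module.Basis (Fin n) k A) then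
    dt (Algebra.leftMulMatrix (Classical.choice h.choose_spec)).toRingHom w
  else 1

section basic

variable {A R ι : Type*} [CommRing A] [CommRing R] [Fintype ι] [DecidableEq ι]

theorem mt_coeff (ρ : A →+* Matrix ι ι R) (w : A[X]) (i j : ι) (n : ℕ) :
    (mt ρ w i j).coeff n = ρ (w.coeff n) i j := by
  have h := matPolyEquiv_coeff_apply (mt ρ w) n i j
  rw [← h, mt, AlgEquiv.apply_symm_apply, coeff_map]

/-- Two representations intertwined by an injective matrix have the same determinant. -/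
theorem dt_conj [IsDomain R] (ρ ρ' : A →+* Matrix ι ι R) (P : Matrix ι ι R) (hP : P.det ≠ 0)
    (h : ∀ a, P * ρ a = ρ' a * P) (w : A[X]) : dt ρ w = dt ρ' w := by
  have h1 : (P.map (C : R →+* R[X])) * mt ρ w = mt ρ' w * (P.map (C : R →+* R[X])) := by
    ext i j n
    rw [Matrix.mul_apply, Matrix.mul_apply, finsetSum_coeff, finsetSum_coeff]
    simp only [Matrix.map_apply, coeff_C_mul, coeff_mul_C, mt_coeff]
    have := congrFun (congrFun (h (w.coeff n)) i) j
    rwa [Matrix.mul_apply, Matrix.mul_apply] at this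
  have h2 := congrArg Matrix.det h1
  rw [Matrix.det_mul, Matrix.det_mul, mul_comm] at h2
  have h3 : (P.map (C : R →+* R[X])).det = C P.det := by
    rw [← RingHom.mapMatrix_apply, ← RingHom.map_det]
  rw [h3] at h2
  have h4 : (C P.det : R[X]) ≠ 0 := by simpa using hP
  exact mul_right_cancel₀ h4 h2

theorem mt_map {R' : Type*} [CommRing R'] (f : R →+* R') (ρ : A →+* Matrix ι ι R) (w : A[X]) :
    mt (f.mapMatrix.comp ρ) w = (mapRingHom f).mapMatrix (mt ρ w) := by
  ext i j n
  rw [mt_coeff]
  simp [mt_coeff]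

theorem dt_map {R' : Type*} [CommRing R'] (f : R →+* R') (ρ : A →+* Matrix ι ι R) (w : A[X]) :
    dt (f.mapMatrix.comp ρ) w = (dt ρ w).map f := by
  rw [dt, mt_map, ← RingHom.map_det]
  rfl

theorem dt_comp {A' : Type*} [CommRing A'] (g : A' →+* A) (ρ : A →+* Matrix ι ι R) (w : A'[X]) :
    dt (ρ.comp g) w = dt ρ (w.map g) := by
  rw [dt, dt, mt, mt, Polynomial.map_map]

theorem dt_reindex {κ : Type*} [Fintype κ] [DecidableEq κ] (e : ι ≃ κ) (ρ : A →+* Matrix ι ι R)
    (w : A[X]) :
    dt ((Matrix.reindexRingEquiv R e).toRingHom.comp ρ) w = dt ρ w := by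
  have h : mt ((Matrix.reindexRingEquiv R e).toRingHom.comp ρ) w = Matrix.reindex e e (mt ρ w) := by
    ext i j n
    rw [mt_coeff]
    simp [mt_coeff]
  rw [dt, h, Matrix.det_reindex_self]
  rfl

theorem dt_diag (φ : ι → A →+* R) (ρ : A →+* Matrix ι ι R)
    (h : ∀ a, ρ a = Matrix.diagonal fun i => φ i a) (w : A[X]) :
    dt ρ w = ∏ i, w.map (φ i) := by
  have h1 : mt ρ w = Matrix.diagonal fun i => w.map (φ i) := by
    ext i j n
    rw [mt_coeff, h]
    by_cases hij : i = j
    · subst hij
      simp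
    · simp [hij]
  rw [dt, h1, Matrix.det_diagonal]

theorem dt_block {κ : Type*} [Fintype κ] [DecidableEq κ] (ρ : A →+* Matrix (ι ⊕ κ) (ι ⊕ κ) R)
    (α : A →+* Matrix ι ι R) (δ : A →+* Matrix κ κ R)
    (h1 : ∀ a i j, ρ a (Sum.inl i) (Sum.inl j) = α a i j)
    (h2 : ∀ a i j, ρ a (Sum.inr i) (Sum.inl j) = 0)
    (h3 : ∀ a i j, ρ a (Sum.inr i) (Sum.inr j) = δ a i j) (w : A[X]) :
    dt ρ w = dt α w * dt δ w := by
  have h : mt ρ w = Matrix.fromBlocks (mt α w) (Matrix.of fun i j => mt ρ w (Sum.inl i) (Sum.inr j))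
      0 (mt δ w) := by
    ext i j n
    rcases i with i | i <;> rcases j with j | j
    · simp [mt_coeff, h1]
    · simp
    · simp [mt_coeff, h2]
    · simp [mt_coeff, h3]
  rw [dt, h, Matrix.det_fromBlocks_zero₂₁]
  rfl

end basic

/-- The norm computed in any basis. -/
theorem nmA_eq {k A ι : Type*} [CommRing k] [IsDomain k] [CommRing A] [Algebra k A] [Fintype ι]
    [DecidableEq ι] (b : Module.Basis ι k A) (w : A[X]) :
    nmA k A w = dt (Algebra.leftMulMatrix b).toRingHom w := by
  classical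
  have hex : ∃ n : ℕ, Nonempty (Module.Basis (Fin n) k A) :=
    ⟨Fintype.card ι, ⟨b.reindex (Fintype.equivFin ι)⟩⟩
  rw [nmA, dif_pos hex]
  set b₀ := Classical.choice hex.choose_spec with hb₀
  let e : Fin hex.choose ≃ ι := b₀.indexEquiv b
  rw [← dt_reindex e]
  refine dt_conj _ _ (b.toMatrix (b₀.reindex e)) ?_ ?_ w
  · have := (b.invertibleToMatrix (b₀.reindex e))
    have h1 : IsUnit (b.toMatrix (b₀.reindex e)).det :=
      (Matrix.isUnit_iff_isUnit_det _).1 (isUnit_of_invertible _)
    exact h1.ne_zero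
  · intro a
    have h1 : ((Matrix.reindexRingEquiv k e).toRingHom.comp
        (Algebra.leftMulMatrix b₀).toRingHom) a = Algebra.leftMulMatrix (b₀.reindex e) a := by
      ext i j
      simp [Algebra.leftMulMatrix_eq_repr_mul]
    rw [h1]
    change _ = Algebra.leftMulMatrix b a * _
    rw [Algebra.leftMulMatrix_apply, Algebra.leftMulMatrix_apply]
    rw [← basis_toMatrix_mul_linearMap_toMatrix_mul_basis_toMatrix b (b₀.reindex e) b (b₀.reindex e)
      (Algebra.lmul k A a), Matrix.mul_assoc _ _ (b.toMatrix (b₀.reindex e)),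
      Module.Basis.toMatrix_mul_toMatrix_flip, Matrix.mul_one]

end Pool.Agent.H309R3.Rec
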